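import Pool.Agent.H143RH.Final

/-!
# The density of the record random harmonic series is discontinuous (Q1 of MP_37d573_pr: proved)

`H143RH.Records P I` says that `I 0, I 1, I 2, ...` (standing for `I_1, I_2, I_3, ...`) are
independent, `{0,1}`-valued, with `P(I_{k+1} = 1) = 1/(k+1)`; `H143RH.S I = ∑ I_n / n`.

Every version of the density of the law of `S` is discontinuous at some point of `(1, 1 + η)`, for
every `η > 0`; in particular at some point (indeed at infinitely many points) of `(1, ∞)`.

Idea: if a version were continuous on `(1, 1 + η)`, then for a large prime `p` and `m = 2p - 1` the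
tail sum `T = ∑_{n > m} I_n / n` would have a density whose jump at `a/p` is `(-1/(p-1))^a` times its
jump at `0` (the indices `n ≤ m`, `n ≠ p`, only produce shifts by `p`-integral numbers), whereas a
size-bias inequality shows that this density is far smaller than that near `a/p`.
-/

namespace Pool.Agent.Results.MP_37d573_pr.DiscontinuousNearOne

open MeasureTheory ProbabilityTheory H143RH

theorem result {Ω : Type*} [MeasurableSpace Ω] (P : Measure Ω) [IsProbabilityMeasure P]
    (I : ℕ → Ω → ℝ) (hI : Records P I) (f : ℝ → ℝ)
    (hf : P.map (S I) = volume.withDensity (fun x => ENNReal.ofReal (f x)))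
    (η : ℝ) (hη : 0 < η) :
    ∃ x : ℝ, 1 < x ∧ x < 1 + η ∧ ¬ ContinuousAt f x := by
  by_contra hcon
  push Not at hcon
  refine no_cont hI hf (min η 1) (lt_min hη one_pos) (min_le_right _ _) fun x h1 h2 => ?_
  exact hcon x h1 (by linarith [min_le_left η 1])

end Pool.Agent.Results.MP_37d573_pr.DiscontinuousNearOne
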